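import Pool.Agent.W_MP_3e1131_co.Board

/-!
# Bounded-length Maker wins in the generalized van der Waerden game

For every finite nonempty `S ⊆ ℕ` with `n` elements, Maker has an `N`-move strategy in the
game `G(S)` with `N = (n * 2 ^ n) ^ (2 * n)`, a number depending on `n` only.

Idea of the proof.  The board used is the set of all sums `∑ c_s s` (`s ∈ S`) with
coefficients `0 ≤ c_s < n ^ 2 * 4 ^ n`.  It has at most `N` elements, however large the
elements of `S` are, and for every `1 ≤ a ≤ j` and every sum `b` with coefficients `< j`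
(where `2 * j = n ^ 2 * 4 ^ n`) it contains the copy `a S + b`.  Any two numbers lie in at
most `n ^ 2` of these copies, and Beck's potential argument gives a Maker win on this board.
-/

namespace Pool.Agent.Results.MP_3e1131_co.BoundedMakerWin

/-- `P` contains a copy `a S + b` of `S`, for some integers `a ≥ 1` and `b`. -/
def ContainsCopy (S P : Finset ℕ) : Prop :=
  ∃ a b : ℤ, 1 ≤ a ∧ ∀ s ∈ S, ∃ p ∈ P, (p : ℤ) = a * (s : ℤ) + b

/-- A strategy of Maker is a function `σ : List ℕ → ℕ`; it gives the number that Maker claims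
next when the list of the numbers claimed by Breaker so far (in order) is the argument.
`makerMove σ y i` is the number claimed by Maker in round `i` (`i = 0, 1, 2, ...`) when she
follows `σ` and Breaker claims `y 0, y 1, y 2, ...`. -/
def makerMove (σ : List ℕ → ℕ) (y : ℕ → ℕ) (i : ℕ) : ℕ := σ ((List.range i).map y)

/-- Maker's number in round `i` has not been claimed before. -/
def MakerLegal (σ : List ℕ → ℕ) (y : ℕ → ℕ) (i : ℕ) : Prop :=
  ∀ j < i, makerMove σ y i ≠ makerMove σ y j ∧ makerMove σ y i ≠ y j

/-- Breaker's number in round `i` (claimed after Maker's number of round `i`) has not been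
claimed before. -/
def BreakerLegal (σ : List ℕ → ℕ) (y : ℕ → ℕ) (i : ℕ) : Prop :=
  (∀ j < i, y i ≠ y j) ∧ ∀ j ≤ i, y i ≠ makerMove σ y j

/-- `σ` is an `N`-move strategy of Maker for `S`: against all legal play of Breaker, the first
`N` moves of Maker are legal and the `N` numbers she has claimed then contain a copy of `S`
(so she has won at the latest with her `N`-th selection).  Only the first `N - 1` replies of
Breaker, made before Maker's `N`-th selection, matter. -/
def IsMoveStrategy (S : Finset ℕ) (N : ℕ) (σ : List ℕ → ℕ) : Prop :=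
  ∀ y : ℕ → ℕ, (∀ i, i + 1 < N → BreakerLegal σ y i) →
    (∀ i < N, MakerLegal σ y i) ∧ ContainsCopy S ((Finset.range N).image (makerMove σ y))

/-- For every finite nonempty `S ⊆ ℕ`, Maker has a `C(n)`-move strategy in `G(S)`, where
`n = |S|` and `C(n) = (n * 2 ^ n) ^ (2 * n)`. -/
theorem result (S : Finset ℕ) (hS : S.Nonempty) :
    ∃ σ : List ℕ → ℕ, IsMoveStrategy S ((S.card * 2 ^ S.card) ^ (2 * S.card)) σ := by
  obtain ⟨σ, hσ⟩ := Pool.Agent.W_MP_3e1131_co.exists_strategy S hS
  refine ⟨σ, fun y hy => ?_⟩
  obtain ⟨h1, a, b, ha, hab⟩ := hσ y (fun i hi => hy i hi)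
  refine ⟨fun i hi j hj => h1 i hi j hj, (a : ℤ), (b : ℤ), by exact_mod_cast ha, ?_⟩
  intro s hs
  exact ⟨a * s + b, hab s hs, by push_cast; ring⟩

end Pool.Agent.Results.MP_3e1131_co.BoundedMakerWin
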